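import Mathlib

set_option autoImplicit false

namespace Pool.Agent.Results.MP_bdbea1_co.Second

open SimpleGraph

/-- The graph of `s`-jets. -/
def jet {V : Type} (G : SimpleGraph V) (s : ℕ) : SimpleGraph (V × Fin (s + 1)) where
  Adj x y := G.Adj x.1 y.1 ∧ x.2.1 + y.2.1 ≤ s
  symm := ⟨fun _ _ h => ⟨h.1.symm, by have := h.2; omega⟩⟩
  loopless := ⟨fun _ h => h.1.ne rfl⟩

/-- Chordal: no induced cycle of length at least four. -/
def Chordal {W : Type} (H : SimpleGraph W) : Prop :=
  ∀ k, 4 ≤ k → IsEmpty (cycleGraph k ↪g H)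

/-- Co-chordal: the complement is chordal. -/
def CoChordal {W : Type} (H : SimpleGraph W) : Prop := Chordal Hᶜ

lemma no_tri (n : ℕ) (i j l : Fin (n + 4)) (h1 : (cycleGraph (n + 4)).Adj i j)
    (h2 : (cycleGraph (n + 4)).Adj j l) (h3 : (cycleGraph (n + 4)).Adj i l) : False := by
  have k1 : ((1 : ℕ) : ZMod (n + 4)) ≠ 0 := fun h => by
    have := Nat.le_of_dvd (by norm_num) ((ZMod.natCast_eq_zero_iff _ _).mp h); omega
  have k3 : ((3 : ℕ) : ZMod (n + 4)) ≠ 0 := fun h => by
    have := Nat.le_of_dvd (by norm_num) ((ZMod.natCast_eq_zero_iff _ _).mp h); omega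
  rw [cycleGraph_adj] at h1 h2 h3
  have key : ∀ x y z : ZMod (n + 4), (x - y = 1 ∨ y - x = 1) → (y - z = 1 ∨ z - y = 1) →
      (x - z = 1 ∨ z - x = 1) → False := by
    intro x y z a b c
    push_cast at k1 k3
    rcases a with a | a <;> rcases b with b | b <;> rcases c with c | c
    · exact k1 (by linear_combination c - a - b)
    · exact k3 (by linear_combination - c - a - b)
    · exact k1 (by linear_combination a - b - c)
    · exact k1 (by linear_combination b - a - c)
    · exact k1 (by linear_combination b - a - c)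
    · exact k1 (by linear_combination a - b - c)
    · exact k3 (by linear_combination - c - a - b)
    · exact k1 (by linear_combination c - a - b)
  exact key i j l h1 h2 h3

lemma other (n : ℕ) (i j : Fin (n + 4)) : ∃ l, l ≠ i ∧ (cycleGraph (n + 4)).Adj j l := by
  have k2 : ((2 : ℕ) : ZMod (n + 4)) ≠ 0 := fun h => by
    have := Nat.le_of_dvd (by norm_num) ((ZMod.natCast_eq_zero_iff _ _).mp h); omega
  have key : ∀ y : ZMod (n + 4), y + 1 ≠ y - 1 := by
    intro y h
    push_cast at k2
    exact k2 (by linear_combination h)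
  by_cases h : j + 1 = i
  · refine ⟨j - 1, fun h' => key j (h.trans h'.symm), ?_⟩
    rw [cycleGraph_adj]; left; exact sub_sub_cancel j 1
  · refine ⟨j + 1, h, ?_⟩
    rw [cycleGraph_adj]; right; simp

/-- If the second jet graph is co-chordal then every jet graph is co-chordal. In particular no
graph loses co-chordality of its jet graphs for the first time at an order `n + 1 ≥ 3`. -/
theorem result :
    (∀ (V : Type) (G : SimpleGraph V), CoChordal (jet G 2) → ∀ s, CoChordal (jet G s)) ∧
    (∀ n : ℕ, 2 ≤ n → ∀ (V : Type) (G : SimpleGraph V),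
      (∀ i, 1 ≤ i → i ≤ n → CoChordal (jet G i)) → CoChordal (jet G (n + 1))) := by
  have main : ∀ (V : Type) (G : SimpleGraph V), CoChordal (jet G 2) →
      ∀ s, CoChordal (jet G s) := by
    intro V G h s k hk
    obtain ⟨n, rfl⟩ : ∃ n, k = n + 4 := ⟨k - 4, by omega⟩
    refine ⟨fun f => ?_⟩
    obtain ⟨w, hw⟩ := Finite.exists_max (fun i => (f i).2.1)
    have hA : ∀ i j, (cycleGraph (n + 4)).Adj i j ↔ i ≠ j ∧ ¬ (jet G s).Adj (f i) (f j) := by
      intro i j
      rw [← f.map_adj_iff, compl_adj, f.injective.ne_iff]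
    let b : Fin (n + 4) → Fin 3 := fun i =>
      if i = w then 2 else if s < (f i).2.1 + (f w).2.1 then 1 else 0
    have hb : ∀ i j, i ≠ j → ((f i).2.1 + (f j).2.1 ≤ s ↔ (b i).1 + (b j).1 ≤ 2) := by
      intro i j hij
      by_cases hi : i = w
      · subst hi
        simp only [b, if_true, if_neg hij.symm]
        split_ifs <;> simp <;> omega
      · by_cases hj : j = w
        · subst hj
          simp only [b, if_true, if_neg hij]
          split_ifs <;> simp <;> omega
        · have : (f i).2.1 + (f j).2.1 ≤ s := by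
            by_contra hc
            have a1 := hw i
            have a2 := hw j
            refine no_tri n i j w ((hA _ _).mpr ⟨hij, fun h => hc h.2⟩)
              ((hA _ _).mpr ⟨hj, fun h => ?_⟩) ((hA _ _).mpr ⟨hi, fun h => ?_⟩)
            · have := h.2; omega
            · have := h.2; omega
          simp only [b, if_neg hi, if_neg hj, this, true_iff]
          split_ifs <;> simp
    let g : Fin (n + 4) → V × Fin 3 := fun i => ((f i).1, b i)
    have hg : ∀ i j, (jet G 2).Adj (g i) (g j) ↔ (jet G s).Adj (f i) (f j) := by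
      intro i j
      by_cases hij : i = j
      · subst hij; simp
      · exact and_congr Iff.rfl (hb i j hij).symm
    have ginj : Function.Injective g := by
      intro i j e
      by_contra hij
      obtain ⟨l, hl, hjl⟩ := other n i j
      refine no_tri n i j l ((hA _ _).mpr ⟨hij, ?_⟩) hjl ((hA _ _).mpr ⟨hl.symm, ?_⟩)
      · rw [← hg, e]; exact (jet G 2).irrefl
      · rw [← hg, e, hg]; exact ((hA _ _).mp hjl).2
    refine (h (n + 4) hk).false ⟨⟨g, ginj⟩, ?_⟩
    intro i j
    rw [hA, compl_adj, ← hg]
    exact and_congr ginj.ne_iff Iff.rfl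
  exact ⟨main, fun n hn V G h => main V G (h 2 (by norm_num) hn) _⟩

end Pool.Agent.Results.MP_bdbea1_co.Second
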